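import Pool.Agent.H28.DS.Thin
import Pool.Agent.H28.MG.Shift
import Pool.Agent.H21.WN.Bri

/-!
# Dilation symmetry of the deterministic part (MP_34b97f_an): the joint law
-/

set_option autoImplicit false

open MeasureTheory ProbabilityTheory Filter Topology Finset

namespace Pool.Agent.H28.DS

open Pool.Agent.H89.MT (I1 X pt z1 IsMult)
open Pool.Agent.H47.RP (sg UC T_RAR)
open Pool.Agent.H36.RP (S past remote remote_le past_le past_mono remote_le_past mulI dil Local
  T_MW T_APX)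
open Pool.Agent.H12.RP (cl dil_cont)
open Pool.Agent.H49.RPR (sI sI_sq)
open Pool.Agent.H21.WN (PredRem)

/-! ### Uniform continuity on the compact product -/

theorem ucx {F : X × X → ℝ} (hF : Continuous F) {ε : ℝ} (hε : 0 < ε) :
    ∃ n : ℕ, ∀ a b : X × X, (∀ k : ℤ, |k| ≤ n → |((a.1 k : I1) : ℝ) - b.1 k| ≤ 1 / (n + 1) ∧
      |((a.2 k : I1) : ℝ) - b.2 k| ≤ 1 / (n + 1)) → |F a - F b| ≤ ε := by
  by_contra hcon
  push Not at hcon
  choose a b hab hF' using hcon
  obtain ⟨c, ψ, hψ, hc⟩ := CompactSpace.tendsto_subseq a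
  have hinv : Tendsto (fun n : ℕ => 1 / ((n : ℝ) + 1)) atTop (𝓝 0) :=
    tendsto_one_div_add_atTop_nhds_zero_nat
  have h0 : Tendsto (fun j => 1 / (((ψ j : ℕ) : ℝ) + 1)) atTop (𝓝 0) :=
    hinv.comp hψ.tendsto_atTop
  have hb : Tendsto (b ∘ ψ) atTop (𝓝 c) := by
    have hc1 : Tendsto (fun j => (a (ψ j)).1) atTop (𝓝 c.1) := (continuous_fst.tendsto c).comp hc
    have hc2 : Tendsto (fun j => (a (ψ j)).2) atTop (𝓝 c.2) := (continuous_snd.tendsto c).comp hc
    have key : ∀ k : ℤ, ∀ᶠ j in atTop, |k| ≤ ((ψ j : ℕ) : ℤ) := by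
      intro k
      have h1 := hψ.tendsto_atTop.eventually_ge_atTop k.natAbs
      filter_upwards [h1] with j hj
      rw [Int.abs_eq_natAbs]
      exact_mod_cast hj
    refine Tendsto.prodMk_nhds (f := atTop) (mx := fun j => (b (ψ j)).1) (my := fun j => (b (ψ j)).2)
      ?_ ?_
    · rw [tendsto_pi_nhds] at hc1 ⊢
      intro k
      rw [tendsto_subtype_rng] at *
      have h1 : Tendsto (fun j => (((a (ψ j)).1 k : I1) : ℝ)) atTop (𝓝 ((c.1 k : I1) : ℝ)) :=
        (continuous_subtype_val.tendsto _).comp (hc1 k)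
      have h2 : Tendsto (fun j => (((a (ψ j)).1 k : I1) : ℝ) - (((b (ψ j)).1 k : I1) : ℝ)) atTop
          (𝓝 0) := by
        rw [tendsto_zero_iff_abs_tendsto_zero]
        refine squeeze_zero' (Eventually.of_forall fun j => abs_nonneg _) ?_ h0
        filter_upwards [key k] with j hj
        exact (hab (ψ j) k hj).1
      have h3 := h1.sub h2
      rw [sub_zero] at h3
      refine h3.congr fun j => ?_
      ring
    · rw [tendsto_pi_nhds] at hc2 ⊢
      intro k
      rw [tendsto_subtype_rng] at *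
      have h1 : Tendsto (fun j => (((a (ψ j)).2 k : I1) : ℝ)) atTop (𝓝 ((c.2 k : I1) : ℝ)) :=
        (continuous_subtype_val.tendsto _).comp (hc2 k)
      have h2 : Tendsto (fun j => (((a (ψ j)).2 k : I1) : ℝ) - (((b (ψ j)).2 k : I1) : ℝ)) atTop
          (𝓝 0) := by
        rw [tendsto_zero_iff_abs_tendsto_zero]
        refine squeeze_zero' (Eventually.of_forall fun j => abs_nonneg _) ?_ h0
        filter_upwards [key k] with j hj
        exact (hab (ψ j) k hj).2
      have h3 := h1.sub h2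
      rw [sub_zero] at h3
      refine h3.congr fun j => ?_
      ring
  have h1 := (hF.tendsto c).comp hc
  have h2 := (hF.tendsto c).comp hb
  have h3 : Tendsto (fun j => |F (a (ψ j)) - F (b (ψ j))|) atTop (𝓝 0) := by
    have h4 := (h1.sub h2).abs
    rw [sub_self, abs_zero] at h4
    exact h4
  have h5 := h3.eventually_lt_const hε
  obtain ⟨j, hj⟩ := h5.exists
  exact absurd hj (not_lt.2 (hF' (ψ j)).le)

/-! ### The conditional means -/

/-- the conditional mean of `x k` given the remote past -/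
noncomputable def P (κ : Measure X) (k : ℤ) : X → ℝ := κ[fun x : X => (x k : ℝ) | remote]

variable {κ : Measure X} [IsProbabilityMeasure κ]

theorem meas_y (k : ℤ) : Measurable fun x : X => (x k : ℝ) :=
  measurable_subtype_coe.comp (measurable_pi_apply k)

theorem abs_y (x : X) (k : ℤ) : |(x k : ℝ)| ≤ 1 := abs_le.2 (x k).2

omit [IsProbabilityMeasure κ] in
theorem meas_P (k : ℤ) : Measurable (P κ k) :=
  (stronglyMeasurable_condExp.measurable).mono remote_le le_rfl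

theorem P_bdd (k : ℤ) : ∀ᵐ x ∂κ, |P κ k x| ≤ 1 := Pool.Agent.H28.MG.P_bdd κ k

theorem int_bdd {f : X → ℝ} (hf : Measurable f) {C : ℝ} (hC : ∀ᵐ x ∂κ, |f x| ≤ C) :
    Integrable f κ := by
  refine Integrable.of_bound hf.aestronglyMeasurable C ?_
  filter_upwards [hC] with x hx
  rw [Real.norm_eq_abs]
  exact hx

theorem P_succ (hS : MeasurePreserving S κ κ) (k : ℤ) :
    P κ (k + 1) =ᵐ[κ] fun x => P κ k (S x) :=
  Pool.Agent.H28.MG.condExp_S κ hS (f := fun x : X => (x k : ℝ))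
    (int_bdd (meas_y k) (Eventually.of_forall fun x => abs_y x k))

theorem sq_P (hS : MeasurePreserving S κ κ) (k : ℤ) :
    ∫ x, P κ k x ^ 2 ∂κ = ∫ x, P κ 0 x ^ 2 ∂κ := by
  have h1 : ∀ k : ℤ, ∫ x, P κ (k + 1) x ^ 2 ∂κ = ∫ x, P κ k x ^ 2 ∂κ := by
    intro k
    calc ∫ x, P κ (k + 1) x ^ 2 ∂κ = ∫ x, P κ k (S x) ^ 2 ∂κ := by
          refine integral_congr_ae ?_
          filter_upwards [P_succ hS k] with x hx
          rw [hx]
      _ = ∫ x, P κ k x ^ 2 ∂(κ.map S) := by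
          rw [integral_map hS.measurable.aemeasurable
            ((meas_P k).pow_const 2).aestronglyMeasurable]
      _ = ∫ x, P κ k x ^ 2 ∂κ := by rw [hS.map_eq]
  induction k using Int.induction_on with
  | zero => rfl
  | succ i hi => rw [h1, hi]
  | pred i hi =>
    have h2 := h1 (-(i : ℤ) - 1)
    rw [sub_add_cancel] at h2
    rw [← h2, hi]

theorem pair (hpred : PredRem κ) (m : ℤ) {ψ : X → ℝ} {D : ℝ} (hψ : Measurable[past (m - 1)] ψ)
    (hD : ∀ x, |ψ x| ≤ D) : ∫ x, P κ m x * ψ x ∂κ = ∫ x, (x m : ℝ) * ψ x ∂κ := by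
  have hψm : Measurable ψ := hψ.mono (past_le _) le_rfl
  have hiy : Integrable (fun x : X => (x m : ℝ)) κ :=
    int_bdd (meas_y m) (Eventually.of_forall fun x => abs_y x m)
  have hi : Integrable ((fun x : X => (x m : ℝ)) * ψ) κ := by
    refine int_bdd (C := D) ((meas_y m).mul hψm) (Eventually.of_forall fun x => ?_)
    rw [Pi.mul_apply, abs_mul]
    have h3 : 0 ≤ D := (abs_nonneg _).trans (hD x)
    calc |(x m : ℝ)| * |ψ x| ≤ 1 * D := mul_le_mul (abs_y x m) (hD x) (abs_nonneg _) zero_le_one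
      _ = D := one_mul D
  have h1 : κ[fun x : X => (x m : ℝ) | past (m - 1)] =ᵐ[κ] P κ m :=
    hpred m (fun a => (a : ℝ)) measurable_subtype_coe fun a => abs_le.2 a.2
  have h2 : κ[(fun x : X => (x m : ℝ)) * ψ | past (m - 1)] =ᵐ[κ]
      κ[fun x : X => (x m : ℝ) | past (m - 1)] * ψ :=
    condExp_mul_of_stronglyMeasurable_right hψ.stronglyMeasurable hi hiy
  calc ∫ x, P κ m x * ψ x ∂κ = ∫ x, (κ[(fun x : X => (x m : ℝ)) * ψ | past (m - 1)]) x ∂κ := by
        refine integral_congr_ae ?_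
        filter_upwards [h1, h2] with x hx hx'
        rw [hx', Pi.mul_apply, hx]
    _ = ∫ x, (x m : ℝ) * ψ x ∂κ :=
        integral_condExp (past_le (m - 1)) (f := (fun x : X => (x m : ℝ)) * ψ)

/-- the distance of the conditional mean from a function of the past -/
theorem sq_expand (hS : MeasurePreserving S κ κ) (hpred : PredRem κ) (m : ℤ) {ψ : X → ℝ} {D : ℝ}
    (hψ : Measurable[past (m - 1)] ψ) (hD : ∀ x, |ψ x| ≤ D) :
    ∫ x, (P κ m x - ψ x) ^ 2 ∂κ =
      ∫ x, P κ 0 x ^ 2 ∂κ - 2 * ∫ x, (x m : ℝ) * ψ x ∂κ + ∫ x, ψ x ^ 2 ∂κ := by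
  have hψm : Measurable ψ := hψ.mono (past_le _) le_rfl
  have i1 : Integrable (fun x => P κ m x ^ 2) κ := by
    refine int_bdd (C := 1) ((meas_P m).pow_const 2) ?_
    filter_upwards [P_bdd (κ := κ) m] with x hx
    rw [abs_pow]
    exact pow_le_one₀ (abs_nonneg _) hx
  have i2 : Integrable (fun x => P κ m x * ψ x) κ := by
    refine int_bdd (C := D) ((meas_P m).mul hψm) ?_
    filter_upwards [P_bdd (κ := κ) m] with x hx
    rw [abs_mul]
    have h3 : 0 ≤ D := (abs_nonneg _).trans (hD x)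
    calc |P κ m x| * |ψ x| ≤ 1 * D := mul_le_mul hx (hD x) (abs_nonneg _) zero_le_one
      _ = D := one_mul D
  have i3 : Integrable (fun x => ψ x ^ 2) κ := by
    refine int_bdd (C := D ^ 2) (hψm.pow_const 2) (Eventually.of_forall fun x => ?_)
    rw [abs_pow]
    exact pow_le_pow_left₀ (abs_nonneg _) (hD x) 2
  have e : ∀ x, (P κ m x - ψ x) ^ 2 = P κ m x ^ 2 - 2 * (P κ m x * ψ x) + ψ x ^ 2 := fun x => by
    ring
  have i12 : Integrable (fun x => P κ m x ^ 2 - 2 * (P κ m x * ψ x)) κ :=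
    i1.sub (i2.const_mul 2)
  rw [integral_congr_ae (Eventually.of_forall e), integral_add i12 i3,
    integral_sub i1 (i2.const_mul 2), integral_const_mul, sq_P hS m, pair hpred m hψ hD]

theorem mulI_cont (s : I1) : Continuous (mulI s) := by
  unfold mulI
  exact Continuous.subtype_mk (continuous_const.mul continuous_subtype_val) _

theorem dil_meas (s : I1) (p : ℕ) (hp : 0 < p) (k : ℤ) :
    @Measurable X X (past (p * k - 1)) (past (k - 1)) (dil s p) := by
  rw [measurable_iff_comap_le]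
  unfold past
  rw [MeasurableSpace.comap_iSup]
  refine iSup_le fun j => ?_
  rw [MeasurableSpace.comap_iSup]
  refine iSup_le fun hj => ?_
  rw [MeasurableSpace.comap_comp]
  have hle : (p : ℤ) * j ≤ p * k - 1 := by
    have hp' : (1 : ℤ) ≤ p := by exact_mod_cast hp
    nlinarith
  refine le_trans ?_ (le_iSup_of_le ((p : ℤ) * j) (le_iSup_of_le hle le_rfl))
  have he : (fun x : X => x j) ∘ dil s p = mulI s ∘ fun x : X => x ((p : ℤ) * j) := by
    funext x
    rfl
  rw [he, ← MeasurableSpace.comap_comp]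
  exact MeasurableSpace.comap_mono (mulI_cont s).measurable.comap_le

theorem dist_le (hS : MeasurePreserving S κ κ) (hpred : PredRem κ) (k : ℤ) (p : ℕ) (hp : 0 < p)
    (s : I1) (hs : (s : ℝ) ^ 2 = 1) {φ : X → ℝ} {D : ℝ} (hφ : Measurable[past (k - 1)] φ)
    (hD : ∀ x, |φ x| ≤ D) :
    ∫ x, (P κ (p * k) x - s * φ (dil s p x)) ^ 2 ∂κ ≤ ∫ x, (P κ k x - φ x) ^ 2 ∂κ +
      2 * |∫ x, ((dil s p x k : I1) : ℝ) * φ (dil s p x) ∂κ - ∫ x, (x k : ℝ) * φ x ∂κ| +
      |∫ x, φ (dil s p x) ^ 2 ∂κ - ∫ x, φ x ^ 2 ∂κ| := by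
  have hs1 : |(s : ℝ)| ≤ 1 := abs_le.2 s.2
  have h1 := sq_expand hS hpred k hφ hD
  have hm : Measurable[past (p * k - 1)] fun x => (s : ℝ) * φ (dil s p x) :=
    (hφ.comp (dil_meas s p hp k)).const_mul (s : ℝ)
  have hb : ∀ x, |(s : ℝ) * φ (dil s p x)| ≤ D := by
    intro x
    rw [abs_mul]
    have h3 : 0 ≤ D := (abs_nonneg _).trans (hD x)
    calc |(s : ℝ)| * |φ (dil s p x)| ≤ 1 * D :=
          mul_le_mul hs1 (hD _) (abs_nonneg _) zero_le_one
      _ = D := one_mul D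
  have h2 := sq_expand hS hpred (p * k) hm hb
  have e1 : ∫ x, (x ((p : ℤ) * k) : ℝ) * ((s : ℝ) * φ (dil s p x)) ∂κ =
      ∫ x, ((dil s p x k : I1) : ℝ) * φ (dil s p x) ∂κ := by
    refine integral_congr_ae (Eventually.of_forall fun x => ?_)
    show (x ((p : ℤ) * k) : ℝ) * ((s : ℝ) * φ (dil s p x)) =
      ((s : ℝ) * (x ((p : ℤ) * k) : ℝ)) * φ (dil s p x)
    ring
  have e2 : ∫ x, ((s : ℝ) * φ (dil s p x)) ^ 2 ∂κ = ∫ x, φ (dil s p x) ^ 2 ∂κ := by
    refine integral_congr_ae (Eventually.of_forall fun x => ?_)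
    show ((s : ℝ) * φ (dil s p x)) ^ 2 = φ (dil s p x) ^ 2
    rw [mul_pow, hs, one_mul]
  rw [e1, e2] at h2
  have a1 := neg_abs_le (∫ x, ((dil s p x k : I1) : ℝ) * φ (dil s p x) ∂κ -
    ∫ x, (x k : ℝ) * φ x ∂κ)
  have a2 := le_abs_self (∫ x, φ (dil s p x) ^ 2 ∂κ - ∫ x, φ x ^ 2 ∂κ)
  rw [h2, h1]
  linarith

end Pool.Agent.H28.DS
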