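import Pool.Agent.H28.DS.Joint

/-!
# Dilation symmetry of the deterministic part (MP_34b97f_an): main estimate
-/

set_option autoImplicit false

open MeasureTheory ProbabilityTheory Filter Topology Finset

namespace Pool.Agent.H28.DS

open Pool.Agent.H89.MT (I1 X pt z1 IsMult)
open Pool.Agent.H47.RP (sg UC T_RAR)
open Pool.Agent.H36.RP (S past remote remote_le past_le past_mono remote_le_past mulI dil Local
  T_MW T_APX)
open Pool.Agent.H12.RP (cl dil_cont)
open Pool.Agent.H49.RPR (sI sI_sq)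
open Pool.Agent.H21.WN (PredRem)

/-- the window -/
noncomputable def win (n : ℕ) (x : X) : X := fun k => if |k| ≤ (n : ℤ) then x k else z1

/-- the window, real sequences -/
noncomputable def tr (n : ℕ) (w : ℤ → ℝ) : ℤ → ℝ := fun k => if |k| ≤ (n : ℤ) then w k else 0

theorem win_cont (n : ℕ) : Continuous (win n) := by
  refine continuous_pi fun k => ?_
  unfold win
  by_cases h : |k| ≤ (n : ℤ)
  · simp only [h, if_true]
    exact continuous_apply k
  · simp only [h, if_false]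
    exact continuous_const

theorem cl_coe (z : ℤ → ℝ) (k : ℤ) : ((cl z k : I1) : ℝ) = max (-1) (min 1 (z k)) := by
  unfold cl
  rw [Set.coe_projIcc]

theorem cl_lip (z z' : ℤ → ℝ) (k : ℤ) : |((cl z k : I1) : ℝ) - cl z' k| ≤ |z k - z' k| := by
  rw [cl_coe, cl_coe]
  refine (abs_max_sub_max_le_max _ _ _ _).trans ?_
  rw [sub_self, abs_zero]
  refine max_le (abs_nonneg _) ?_
  refine (abs_min_sub_min_le_max _ _ _ _).trans ?_
  rw [sub_self, abs_zero]
  exact max_le (abs_nonneg _) le_rfl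

theorem cl_val {z : ℤ → ℝ} {k : ℤ} (h : |z k| ≤ 1) : ((cl z k : I1) : ℝ) = z k := by
  have h' := abs_le.1 h
  rw [cl_coe, min_eq_right h'.2, max_eq_right h'.1]

theorem cl_meas {z : X → ℤ → ℝ} (hz : ∀ k, Measurable fun x => z x k) :
    Measurable fun x => cl (z x) := by
  refine measurable_pi_lambda _ fun k => ?_
  exact (continuous_projIcc (h := by norm_num)).measurable.comp (hz k)

theorem near {F : X × X → ℝ} {B ε : ℝ} {n : ℕ} (hB : ∀ a, |F a| ≤ B) (hε : 0 ≤ ε)
    (h : ∀ a b : X × X, (∀ k : ℤ, |k| ≤ n → |((a.1 k : I1) : ℝ) - b.1 k| ≤ 1 / (n + 1) ∧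
      |((a.2 k : I1) : ℝ) - b.2 k| ≤ 1 / (n + 1)) → |F a - F b| ≤ ε)
    (x : X) (z w : ℤ → ℝ) :
    |F (x, cl z) - F (win n x, cl (tr n w))| ≤
      ε + 2 * B * (n + 1) ^ 2 * ∑ k ∈ Finset.Icc (-(n : ℤ)) n, (z k - w k) ^ 2 := by
  have hB0 : 0 ≤ B := (abs_nonneg _).trans (hB (x, x))
  have hn : (0 : ℝ) < n + 1 := by positivity
  by_cases hc : ∀ k : ℤ, |k| ≤ n → |z k - w k| ≤ 1 / (n + 1)
  · refine (h _ _ fun k hk => ⟨?_, ?_⟩).trans (le_add_of_nonneg_right (by positivity))
    · show |((x k : I1) : ℝ) - win n x k| ≤ 1 / (n + 1)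
      unfold win
      rw [if_pos hk, sub_self, abs_zero]
      positivity
    · show |((cl z k : I1) : ℝ) - cl (tr n w) k| ≤ 1 / (n + 1)
      refine (cl_lip _ _ k).trans ?_
      unfold tr
      rw [if_pos hk]
      exact hc k hk
  · push Not at hc
    obtain ⟨k, hk, hgt⟩ := hc
    have h1 : |F (x, cl z) - F (win n x, cl (tr n w))| ≤ 2 * B := by
      refine (abs_sub _ _).trans ?_
      have h2 := hB (x, cl z)
      have h3 := hB (win n x, cl (tr n w))
      linarith
    have h2 : (z k - w k) ^ 2 ≤ ∑ k ∈ Finset.Icc (-(n : ℤ)) n, (z k - w k) ^ 2 :=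
      Finset.single_le_sum (f := fun k => (z k - w k) ^ 2) (fun i _ => sq_nonneg _)
        (Finset.mem_Icc.2 (abs_le.1 hk))
    have h3 : 1 ≤ ((n : ℝ) + 1) ^ 2 * (z k - w k) ^ 2 := by
      rw [← sq_abs (z k - w k), ← mul_pow]
      have h4 : 1 ≤ ((n : ℝ) + 1) * |z k - w k| := by
        rw [div_lt_iff₀ hn] at hgt
        linarith [mul_comm ((n : ℝ) + 1) |z k - w k|]
      exact one_le_pow₀ h4
    have h4 : 2 * B ≤ 2 * B * (n + 1) ^ 2 * ∑ k ∈ Finset.Icc (-(n : ℤ)) n, (z k - w k) ^ 2 := by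
      calc 2 * B = 2 * B * 1 := (mul_one _).symm
        _ ≤ 2 * B * (((n : ℝ) + 1) ^ 2 * (z k - w k) ^ 2) :=
            mul_le_mul_of_nonneg_left h3 (by positivity)
        _ ≤ 2 * B * (((n : ℝ) + 1) ^ 2 * ∑ k ∈ Finset.Icc (-(n : ℤ)) n, (z k - w k) ^ 2) := by
            gcongr
        _ = _ := by ring
    linarith

variable {κ : Measure X} [IsProbabilityMeasure κ]

theorem near_int {F : X × X → ℝ} (hF : Continuous F) {B ε : ℝ} {n : ℕ} (hB : ∀ a, |F a| ≤ B)
    (hε : 0 ≤ ε)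
    (h : ∀ a b : X × X, (∀ k : ℤ, |k| ≤ n → |((a.1 k : I1) : ℝ) - b.1 k| ≤ 1 / (n + 1) ∧
      |((a.2 k : I1) : ℝ) - b.2 k| ≤ 1 / (n + 1)) → |F a - F b| ≤ ε)
    {T : X → X} (hT : Measurable T) {z w : X → ℤ → ℝ} (hz : ∀ k, Measurable fun x => z x k)
    (hw : ∀ k, Measurable fun x => w x k)
    (hi : ∀ k, Integrable (fun x => (z x k - w x k) ^ 2) κ) {c : ℝ}
    (hc : ∀ k ∈ Finset.Icc (-(n : ℤ)) n, ∫ x, (z x k - w x k) ^ 2 ∂κ ≤ c) :
    |∫ x, F (T x, cl (z x)) ∂κ - ∫ x, F (win n (T x), cl (tr n (w x))) ∂κ| ≤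
      ε + 2 * B * (n + 1) ^ 2 * ((2 * n + 1) * c) := by
  have hB0 : 0 ≤ B := (abs_nonneg _).trans (hB (fun _ => z1, fun _ => z1))
  have htr : ∀ k, Measurable fun x => tr n (w x) k := by
    intro k
    unfold tr
    by_cases hk : |k| ≤ (n : ℤ)
    · simp only [hk, if_true]
      exact hw k
    · simp only [hk, if_false]
      exact measurable_const
  have m1 : Measurable fun x => F (T x, cl (z x)) :=
    hF.measurable.comp (hT.prodMk (cl_meas hz))
  have m2 : Measurable fun x => F (win n (T x), cl (tr n (w x))) :=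
    hF.measurable.comp (((win_cont n).measurable.comp hT).prodMk (cl_meas htr))
  have i1 : Integrable (fun x => F (T x, cl (z x))) κ :=
    int_bdd m1 (Eventually.of_forall fun x => hB _)
  have i2 : Integrable (fun x => F (win n (T x), cl (tr n (w x)))) κ :=
    int_bdd m2 (Eventually.of_forall fun x => hB _)
  have i3 : Integrable (fun x => ∑ k ∈ Finset.Icc (-(n : ℤ)) n, (z x k - w x k) ^ 2) κ :=
    integrable_finsetSum _ fun k _ => hi k
  rw [← integral_sub i1 i2]
  refine (abs_integral_le_integral_abs).trans ?_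
  have h1 : ∫ x, |F (T x, cl (z x)) - F (win n (T x), cl (tr n (w x)))| ∂κ ≤
      ∫ x, (ε + 2 * B * (n + 1) ^ 2 * ∑ k ∈ Finset.Icc (-(n : ℤ)) n, (z x k - w x k) ^ 2) ∂κ :=
    integral_mono (i1.sub i2).abs ((integrable_const ε).add (i3.const_mul _)) fun x =>
      near hB hε h (T x) (z x) (w x)
  refine h1.trans ?_
  rw [integral_add (integrable_const ε) (i3.const_mul _), integral_const_mul, integral_const,
    integral_finsetSum _ fun k _ => hi k]
  have h2 : ∑ k ∈ Finset.Icc (-(n : ℤ)) n, ∫ x, (z x k - w x k) ^ 2 ∂κ ≤ (2 * n + 1) * c := by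
    refine (Finset.sum_le_sum hc).trans (le_of_eq ?_)
    rw [Finset.sum_const, nsmul_eq_mul, Int.card_Icc]
    congr 1
    have h3 : ((n : ℤ) + 1 - -(n : ℤ)).toNat = 2 * n + 1 := by omega
    rw [h3]
    push_cast
    ring
  have h3 : 0 ≤ 2 * B * ((n : ℝ) + 1) ^ 2 := by positivity
  have h4 := mul_le_mul_of_nonneg_left h2 h3
  simp only [probReal_univ, smul_eq_mul, one_mul]
  linarith

theorem bdd_of_cont {φ : X → ℝ} (h : Continuous φ) : ∃ D : ℝ, ∀ x, |φ x| ≤ D := by
  obtain ⟨D, hD⟩ := isCompact_univ.exists_bound_of_continuousOn (f := φ) h.continuousOn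
  exact ⟨D, fun x => by simpa [Real.norm_eq_abs] using hD x (Set.mem_univ x)⟩

/-- approximation of the conditional mean -/
theorem app (hAPX : T_APX) (k : ℤ) {η : ℝ} (hη : 0 < η) : ∃ (φ : X → ℝ) (H : ℕ), Continuous φ ∧
    Measurable[past (k - 1)] φ ∧ Local H φ ∧ ∫ x, (P κ k x - φ x) ^ 2 ∂κ ≤ η := by
  have hm : Measurable[remote] (P κ k) := stronglyMeasurable_condExp.measurable
  set g : X → ℝ := fun x => max (-1) (min 1 (P κ k x)) with hg
  have hgm : Measurable[past (k - 1)] g :=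
    (measurable_const.max (measurable_const.min (hm.mono (remote_le_past _) le_rfl)))
  have hgb : ∀ x, |g x| ≤ 1 := fun x =>
    abs_le.2 ⟨le_max_left _ _, max_le (by norm_num) (min_le_left _ _)⟩
  obtain ⟨φ, H, h1, h2, h3, h4⟩ := hAPX κ (k - 1) g 1 hgm hgb η hη
  refine ⟨φ, H, h1, h2, h3, le_trans (le_of_eq ?_) h4⟩
  refine integral_congr_ae ?_
  filter_upwards [P_bdd (κ := κ) k] with x hx
  have h := abs_le.1 hx
  have h5 : g x = P κ k x := by
    show max (-1) (min 1 (P κ k x)) = P κ k x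
    rw [min_eq_right h.2, max_eq_right h.1]
  rw [h5]

theorem joint (hMW : T_MW) (hRAR : T_RAR) (hAPX : T_APX) (u : ℕ → I1) (hu : IsMult u)
    (hsum : Summable (fun p : ℕ => if p.Prime then (1 - |(u p : ℝ)|) / p else 0))
    (hq : Pool.Agent.H36.RP.QuasiGeneric u κ) (hS : MeasurePreserving S κ κ)
    (hpred : PredRem κ) {F : X × X → ℝ} (hF : Continuous F) {ε : ℝ} (hε : 0 < ε) :
    Thin fun p => ε < |∫ x, F (dil (sI (u p)) p x,
      cl (fun k => (sI (u p) : ℝ) * P κ (p * k) x)) ∂κ - ∫ x, F (x, cl (fun k => P κ k x)) ∂κ| := by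
  obtain ⟨B, hB0, hB⟩ : ∃ B : ℝ, 0 < B ∧ ∀ x, |F x| ≤ B := by
    obtain ⟨B, hB⟩ := (isCompact_range hF).isBounded.exists_norm_le
    refine ⟨max B 1, lt_of_lt_of_le one_pos (le_max_right _ _), fun x => ?_⟩
    exact (hB (F x) ⟨x, rfl⟩).trans (le_max_left _ _)
  obtain ⟨n, hn⟩ := ucx hF (ε := ε / 5) (by positivity)
  set K : ℝ := 2 * B * ((n : ℝ) + 1) ^ 2 * ((2 * n + 1) * 4) with hK
  have hK0 : 0 < K := by positivity
  set η : ℝ := ε / 5 / K with hη
  have hη0 : 0 < η := by positivity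
  have hKη : 2 * B * ((n : ℝ) + 1) ^ 2 * ((2 * n + 1) * (4 * η)) = ε / 5 := by
    have h1 : 2 * B * ((n : ℝ) + 1) ^ 2 * ((2 * n + 1) * (4 * η)) = K * η := by
      rw [hK]
      ring
    rw [h1, hη]
    field_simp
  choose φ H hφc hφm hφl hφ using fun k : ℤ => app (κ := κ) hAPX k hη0
  choose D hD using fun k : ℤ => bdd_of_cont (hφc k)
  set G : X → ℝ := fun x => F (win n x, cl (tr n fun k => φ k x)) with hG
  have hGc : Continuous G := by
    refine hF.comp ((win_cont n).prodMk (continuous_pi fun k => ?_))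
    refine (continuous_projIcc (h := by norm_num)).comp ?_
    unfold tr
    by_cases hk : |k| ≤ (n : ℤ)
    · simp only [hk, if_true]
      exact hφc k
    · simp only [hk, if_false]
      exact continuous_const
  have hGl : Local (n + ∑ k ∈ Finset.Icc (-(n : ℤ)) n, H k) G := by
    intro x x' hx
    have h1 : win n x = win n x' := by
      funext k
      unfold win
      by_cases hk : |k| ≤ (n : ℤ)
      · rw [if_pos hk, if_pos hk]
        refine hx k (hk.trans ?_)
        push_cast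
        have : (0 : ℤ) ≤ ∑ k ∈ Finset.Icc (-(n : ℤ)) n, (H k : ℤ) :=
          Finset.sum_nonneg fun i _ => Int.natCast_nonneg _
        linarith
      · rw [if_neg hk, if_neg hk]
    have h2 : (tr n fun k => φ k x) = tr n fun k => φ k x' := by
      funext k
      unfold tr
      by_cases hk : |k| ≤ (n : ℤ)
      · rw [if_pos hk, if_pos hk]
        refine hφl k x x' fun j hj => hx j (hj.trans ?_)
        have h3 : H k ≤ ∑ k ∈ Finset.Icc (-(n : ℤ)) n, H k :=
          Finset.single_le_sum (f := H) (fun i _ => Nat.zero_le _)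
            (Finset.mem_Icc.2 (abs_le.1 hk))
        exact_mod_cast h3.trans (Nat.le_add_left _ _)
      · rw [if_neg hk, if_neg hk]
    show F (win n x, cl (tr n fun k => φ k x)) = F (win n x', cl (tr n fun k => φ k x'))
    rw [h1, h2]
  have t1 := dil_thin hMW hRAR u hu hsum κ hq hGc hGl (ε := ε / 5) (by positivity)
  have t2 : ∀ k : ℤ, Thin fun p => η < |∫ x, ((dil (sI (u p)) p x k : I1) : ℝ) *
      φ k (dil (sI (u p)) p x) ∂κ - ∫ x, (x k : ℝ) * φ k x ∂κ| := by
    intro k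
    have hc : Continuous fun x : X => (x k : ℝ) * φ k x :=
      (continuous_subtype_val.comp (continuous_apply k)).mul (hφc k)
    have hl : Local (k.natAbs + H k) fun x : X => (x k : ℝ) * φ k x := by
      intro x x' hx
      have h1 : x k = x' k := hx k (by rw [Int.abs_eq_natAbs]; push_cast; omega)
      have h2 : φ k x = φ k x' := hφl k x x' fun j hj =>
        hx j (hj.trans (by exact_mod_cast Nat.le_add_left _ _))
      show (x k : ℝ) * φ k x = (x' k : ℝ) * φ k x'
      rw [h1, h2]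
    exact dil_thin hMW hRAR u hu hsum κ hq hc hl hη0
  have t3 : ∀ k : ℤ, Thin fun p => η < |∫ x, φ k (dil (sI (u p)) p x) ^ 2 ∂κ -
      ∫ x, φ k x ^ 2 ∂κ| := by
    intro k
    have hl : Local (H k) fun x : X => φ k x ^ 2 := by
      intro x x' hx
      show φ k x ^ 2 = φ k x' ^ 2
      rw [hφl k x x' hx]
    exact dil_thin hMW hRAR u hu hsum κ hq ((hφc k).pow 2) hl hη0
  refine (t1.or (Thin.finset (Finset.Icc (-(n : ℤ)) n) (fun k p =>
    η < |∫ x, ((dil (sI (u p)) p x k : I1) : ℝ) * φ k (dil (sI (u p)) p x) ∂κ -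
      ∫ x, (x k : ℝ) * φ k x ∂κ| ∨
    η < |∫ x, φ k (dil (sI (u p)) p x) ^ 2 ∂κ - ∫ x, φ k x ^ 2 ∂κ|)
    fun k _ => (t2 k).or (t3 k))).mono fun p hp hbad => ?_
  by_contra hcon
  push Not at hcon
  obtain ⟨h1, h2⟩ := hcon
  set s : I1 := sI (u p) with hs
  have hs2 : (s : ℝ) ^ 2 = 1 := sI_sq _
  have hd : ∀ k ∈ Finset.Icc (-(n : ℤ)) n,
      ∫ x, ((s : ℝ) * P κ (p * k) x - φ k (dil s p x)) ^ 2 ∂κ ≤ 4 * η := by
    intro k hk
    have h3 := dist_le hS hpred k p hp.pos s hs2 (hφm k) (hD k)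
    obtain ⟨h4, h5⟩ := h2 k hk
    have h6 := hφ k
    have h7 : ∫ x, ((s : ℝ) * P κ (p * k) x - φ k (dil s p x)) ^ 2 ∂κ =
        ∫ x, (P κ (p * k) x - s * φ k (dil s p x)) ^ 2 ∂κ := by
      refine integral_congr_ae (Eventually.of_forall fun x => ?_)
      show ((s : ℝ) * P κ (p * k) x - φ k (dil s p x)) ^ 2 =
        (P κ (p * k) x - s * φ k (dil s p x)) ^ 2
      have h8 : (s : ℝ) * P κ (p * k) x - φ k (dil s p x) =
          s * (P κ (p * k) x - s * φ k (dil s p x)) := by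
        linear_combination φ k (dil s p x) * hs2
      rw [h8, mul_pow, hs2, one_mul]
    rw [h7]
    linarith
  have hdm : Measurable (dil s p) := (dil_cont s p).measurable
  have e1 := near_int (κ := κ) hF hB (by positivity : (0 : ℝ) ≤ ε / 5) hn hdm
    (z := fun x k => (s : ℝ) * P κ (p * k) x) (w := fun x k => φ k (dil s p x))
    (fun k => (meas_P _).const_mul _) (fun k => (hφc k).measurable.comp hdm) (fun k => by
      refine int_bdd (C := (1 + D k) ^ 2) ((((meas_P _).const_mul _).sub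
        ((hφc k).measurable.comp hdm)).pow_const 2) ?_
      filter_upwards [P_bdd (κ := κ) (p * k)] with x hx
      rw [abs_pow]
      refine pow_le_pow_left₀ (abs_nonneg _) ?_ 2
      refine (abs_sub _ _).trans (add_le_add ?_ (hD k _))
      rw [abs_mul]
      exact mul_le_one₀ (abs_le.2 s.2) (abs_nonneg _) hx) hd
  have e2 := near_int (κ := κ) hF hB (by positivity : (0 : ℝ) ≤ ε / 5) hn measurable_id
    (z := fun x k => P κ k x) (w := fun x k => φ k x)
    (fun k => meas_P _) (fun k => (hφc k).measurable) (fun k => by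
      refine int_bdd (C := (1 + D k) ^ 2) (((meas_P _).sub (hφc k).measurable).pow_const 2) ?_
      filter_upwards [P_bdd (κ := κ) k] with x hx
      rw [abs_pow]
      refine pow_le_pow_left₀ (abs_nonneg _) ?_ 2
      exact (abs_sub _ _).trans (add_le_add hx (hD k _))) (c := 4 * η) (fun k _ => by
      have := hφ k
      linarith)
  rw [hKη] at e1 e2
  have e3 := abs_sub_le (∫ x, F (dil s p x, cl (fun k => (s : ℝ) * P κ (p * k) x)) ∂κ)
    (∫ x, G (dil s p x) ∂κ) (∫ x, F (x, cl (fun k => P κ k x)) ∂κ)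
  have e4 := abs_sub_le (∫ x, G (dil s p x) ∂κ) (∫ x, G x ∂κ)
    (∫ x, F (x, cl (fun k => P κ k x)) ∂κ)
  have e5 : |∫ x, G x ∂κ - ∫ x, F (x, cl (fun k => P κ k x)) ∂κ| ≤ ε / 5 + ε / 5 := by
    rw [abs_sub_comm]
    exact e2
  have e6 : |∫ x, F (dil s p x, cl (fun k => (s : ℝ) * P κ (p * k) x)) ∂κ -
      ∫ x, G (dil s p x) ∂κ| ≤ ε / 5 + ε / 5 := e1
  linarith

end Pool.Agent.H28.DS
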