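import Pool.Agent.H49.RPR.RST

/-!
# Dilation symmetry of the deterministic part (MP_34b97f_an): sets of primes
-/

set_option autoImplicit false

open MeasureTheory ProbabilityTheory Filter Topology Finset

namespace Pool.Agent.H28.DS

open Pool.Agent.H89.MT (I1 X pt z1 IsMult)
open Pool.Agent.H91.LF (Mean Dil Bdd)
open Pool.Agent.H47.RP (sg UC T_RAR)
open Pool.Agent.H36.RP (S past remote remote_le past_le mulI dil Local T_MW)
open Pool.Agent.H12.RP (FF pt_val cl cl_eq FF_nat FF_mul dil_cont id_pt)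
open Pool.Agent.H49.RPR (uc_cl dil_pt' sI sI_sq FF_abs)

open Classical in
/-- the primes with the property `B` have a finite sum of reciprocals -/
def Thin (B : ℕ → Prop) : Prop :=
  Summable fun p : ℕ => if p.Prime ∧ B p then (1 : ℝ) / p else 0

theorem Thin.mono {A B : ℕ → Prop} (h : Thin B) (hAB : ∀ p, p.Prime → A p → B p) : Thin A := by
  classical
  refine Summable.of_nonneg_of_le (fun p => ?_) (fun p => ?_) h
  · split_ifs
    · positivity
    · exact le_rfl
  · by_cases h1 : p.Prime ∧ A p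
    · rw [if_pos h1, if_pos ⟨h1.1, hAB p h1.1 h1.2⟩]
    · rw [if_neg h1]
      split_ifs
      · positivity
      · exact le_rfl

theorem Thin.or {A B : ℕ → Prop} (hA : Thin A) (hB : Thin B) : Thin fun p => A p ∨ B p := by
  classical
  refine Summable.of_nonneg_of_le (fun p => ?_) (fun p => ?_) (Summable.add hA hB)
  · split_ifs
    · positivity
    · exact le_rfl
  · have h0 : (0 : ℝ) ≤ 1 / p := by positivity
    by_cases h1 : p.Prime ∧ (A p ∨ B p)
    · rw [if_pos h1]
      rcases h1.2 with h2 | h2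
      · rw [if_pos ⟨h1.1, h2⟩]
        split_ifs
        · linarith
        · linarith
      · rw [if_pos (⟨h1.1, h2⟩ : p.Prime ∧ B p)]
        split_ifs
        · linarith
        · linarith
    · rw [if_neg h1]
      split_ifs
      · linarith
      · linarith
      · linarith
      · linarith

theorem Thin.empty {A : ℕ → Prop} (h : ∀ p, p.Prime → ¬ A p) : Thin A := by
  classical
  have h1 : (fun p : ℕ => if p.Prime ∧ A p then (1 : ℝ) / p else 0) = fun _ => 0 := by
    funext p
    exact if_neg fun h1 => h p h1.1 h1.2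
  unfold Thin
  rw [h1]
  exact summable_zero

theorem Thin.finset {ι : Type} (s : Finset ι) (B : ι → ℕ → Prop) (h : ∀ i ∈ s, Thin (B i)) :
    Thin fun p => ∃ i ∈ s, B i p := by
  classical
  induction s using Finset.induction_on with
  | empty =>
    refine Thin.empty fun p _ h1 => ?_
    obtain ⟨i, hi, -⟩ := h1
    exact Finset.notMem_empty i hi
  | insert a s ha ih =>
    refine ((h a (mem_insert_self a s)).or (ih fun i hi => h i (mem_insert_of_mem hi))).mono ?_
    rintro p - ⟨i, hi, hB⟩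
    rcases mem_insert.1 hi with rfl | hi
    · exact Or.inl hB
    · exact Or.inr ⟨i, hi, hB⟩

/-- the law of the coordinates is nearly invariant under the twisted dilations by almost all
primes -/
theorem dil_thin (hMW : T_MW) (hRAR : T_RAR) (u : ℕ → I1) (hu : IsMult u)
    (hsum : Summable (fun p : ℕ => if p.Prime then (1 - |(u p : ℝ)|) / p else 0))
    (κ : Measure X) (hq : Pool.Agent.H36.RP.QuasiGeneric u κ)
    {G : X → ℝ} {H : ℕ} (hG : Continuous G) (hloc : Local H G) {ε : ℝ} (hε : 0 < ε) :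
    Thin fun p => ε < |∫ x, G (dil (sI (u p)) p x) ∂κ - ∫ x, G x ∂κ| := by
  classical
  obtain ⟨Y, Z, hYZ, hlog, hF⟩ := hq
  obtain ⟨M, hM, hE⟩ := hMW Y Z hYZ hlog
  obtain ⟨B, hB0, hB⟩ : ∃ B : ℝ, 0 < B ∧ ∀ x, |G x| ≤ B := by
    obtain ⟨B, hB⟩ := (isCompact_range hG).isBounded.exists_norm_le
    refine ⟨max B 1, lt_of_lt_of_le one_pos (le_max_right _ _), fun x => ?_⟩
    exact (hB (G x) ⟨x, rfl⟩).trans (le_max_left _ _)
  set Φ : (ℤ → ℝ) → ℝ := fun z => G (cl z) / B with hΦ
  have hΦ1 : ∀ z, |Φ z| ≤ 1 := by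
    intro z
    rw [hΦ, abs_div, abs_of_pos hB0]
    exact (div_le_one hB0).2 (hB _)
  have hA : M.E (fun ω => Φ (fun k => FF u (ω 0 + k))) = (∫ x, G x ∂κ) / B := by
    refine hE (fun n => Φ (fun k => FF u (n + k))) 1 _ (fun n => hΦ1 _) ?_
    have h1 := (hF ⟨G, hG⟩).div_const B
    refine h1.congr fun k => ?_
    rw [div_right_comm, sum_div]
    congr 1
    refine sum_congr rfl fun n _ => ?_
    change G (pt u n) / n / B = G (cl (fun k => FF u ((n : ℤ) + k))) / B / n
    rw [id_pt, div_right_comm]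
  have hBp : ∀ (p : ℕ) (s : I1), M.E (fun ω => Φ (fun k => (s : ℝ) * FF u (ω 0 + p * k))) =
      (∫ x, G (dil s p x) ∂κ) / B := by
    intro p s
    refine hE (fun n => Φ (fun k => (s : ℝ) * FF u (n + p * k))) 1 _ (fun n => hΦ1 _) ?_
    have h1 := (hF ⟨fun x => G (dil s p x), hG.comp (dil_cont s p)⟩).div_const B
    refine h1.congr fun k => ?_
    rw [div_right_comm, sum_div]
    congr 1
    refine sum_congr rfl fun n _ => ?_
    change G (dil s p (pt u n)) / n / B =
      G (cl (fun k => (s : ℝ) * FF u ((n : ℤ) + p * k))) / B / n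
    rw [dil_pt', div_right_comm]
  obtain ⟨δ, C, hδ, hC⟩ := hRAR M hM (FF u) (FF_abs u) (FF_mul u hu) H Φ hΦ1
    (uc_cl hG hloc B hB0) (ε / B) (by positivity)
  have key : ∀ S : Finset ℕ, (∀ p ∈ S, p.Prime ∧ 1 - δ ≤ |(u p : ℝ)| ∧
      ε < |∫ x, G (dil (sI (u p)) p x) ∂κ - ∫ x, G x ∂κ|) → ∑ p ∈ S, (1 : ℝ) / p ≤ C := by
    intro S hS
    refine hC S fun p hp => ?_
    obtain ⟨hpp, hp0, hpe⟩ := hS p hp
    have hFp : FF u p = u p := FF_nat u p hpp.pos
    refine ⟨hpp, by rw [hFp]; exact hp0, ?_⟩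
    have h1 := hBp p (sI (u p))
    have h2 : M.E (fun ω => Φ (fun k => sg (FF u p) * FF u (ω 0 + p * k))) =
      (∫ x, G (dil (sI (u p)) p x) ∂κ) / B := by
      rw [hFp]
      exact h1
    rw [hA, h2, ← sub_div, abs_div, abs_of_pos hB0]
    exact (div_lt_div_iff_of_pos_right hB0).2 hpe
  set t : ℕ → ℝ := fun p => if p.Prime then (1 - |(u p : ℝ)|) / p else 0 with ht
  have ht0 : ∀ p, 0 ≤ t p := by
    intro p
    change (0 : ℝ) ≤ if p.Prime then (1 - |(u p : ℝ)|) / p else 0
    split_ifs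
    · have := abs_le.2 (u p).2
      exact div_nonneg (by linarith) (Nat.cast_nonneg _)
    · exact le_rfl
  refine summable_of_sum_le (c := C + (∑' p, t p) / δ) (fun p => ?_) fun T => ?_
  · show (0 : ℝ) ≤ _
    split_ifs
    · positivity
    · exact le_rfl
  · have h1 : ∀ p ∈ T, (if p.Prime ∧ ε < |∫ x, G (dil (sI (u p)) p x) ∂κ - ∫ x, G x ∂κ| then
          (1 : ℝ) / p else 0) ≤
        (if p.Prime ∧ 1 - δ ≤ |(u p : ℝ)| ∧
          ε < |∫ x, G (dil (sI (u p)) p x) ∂κ - ∫ x, G x ∂κ| then (1 : ℝ) / p else 0) +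
          t p / δ := by
      intro p _
      have h3 : (0 : ℝ) ≤ if p.Prime ∧ 1 - δ ≤ |(u p : ℝ)| ∧
          ε < |∫ x, G (dil (sI (u p)) p x) ∂κ - ∫ x, G x ∂κ| then (1 : ℝ) / p else 0 := by
        split_ifs
        · positivity
        · exact le_rfl
      have h5 : 0 ≤ t p / δ := div_nonneg (ht0 p) hδ.le
      by_cases hp : p.Prime ∧ ε < |∫ x, G (dil (sI (u p)) p x) ∂κ - ∫ x, G x ∂κ|
      · rw [if_pos hp]
        have hp1 : (1 : ℝ) ≤ p := by exact_mod_cast hp.1.one_lt.le
        by_cases hd : 1 - δ ≤ |(u p : ℝ)|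
        · rw [if_pos ⟨hp.1, hd, hp.2⟩]
          linarith
        · have h6 : (1 : ℝ) / p ≤ t p / δ := by
            rw [le_div_iff₀ hδ]
            change 1 / (p : ℝ) * δ ≤ if p.Prime then (1 - |(u p : ℝ)|) / p else 0
            rw [if_pos hp.1, one_div, inv_mul_eq_div]
            refine div_le_div_of_nonneg_right ?_ (by linarith)
            linarith [not_le.1 hd]
          linarith
      · rw [if_neg hp]
        linarith
    refine (sum_le_sum h1).trans ?_
    rw [sum_add_distrib]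
    refine add_le_add ?_ ?_
    · rw [← sum_filter]
      refine key _ fun p hp => ?_
      rw [mem_filter] at hp
      exact hp.2
    · rw [← sum_div]
      exact div_le_div_of_nonneg_right (hsum.sum_le_tsum T (fun p _ => ht0 p)) hδ.le

end Pool.Agent.H28.DS
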